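import Mathlib
import Pool.Agent.Helper407.PLBase2
import Pool.Agent.Helper407.PLHH
import Pool.Agent.Helper407.PLCoprime
import Pool.Agent.H898.AutSyl2

set_option autoImplicit false

/-! Relative tools for `p`-soluble sections: sups, Sylow subgroups, Frattini argument. -/

namespace Pool.Agent.TH905.NPL

open Pool.Agent.Helper407.PL Subgroup
open scoped Pointwise

/-- `N/K` is `p`-soluble -/
def PS (p : ℕ) {G : Type} [Group G] (K N : Subgroup G) : Prop := ∃ m, RLp p m K N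

section
variable {G : Type} [Group G] {p : ℕ}

lemma RLp_sup {n : ℕ} {K N D : Subgroup G} (h : RLp p n K N) (hD : Inv N D) :
    RLp p n (K ⊔ D) (N ⊔ D) := by
  obtain ⟨S, h0, h1, h2, h3, h4, h5⟩ := h
  have hS : ∀ i ≤ 2 * n + 1, S i ≤ N := fun i hi => h1 ▸ chain_le h3 hi
  refine ⟨fun i => S i ⊔ D, by simp only [h0], by simp only [h1], ?_,
    fun i => sup_le_sup_right (h3 i) _, ?_, ?_⟩
  · intro i g hg x hx
    obtain ⟨a, ha, d, hd, rfl⟩ := (mem_sup_inv hD).1 hg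
    have h6 : d * x * d⁻¹ ∈ S i ⊔ D :=
      (S i ⊔ D).mul_mem ((S i ⊔ D).mul_mem (mem_sup_right hd) hx)
        ((S i ⊔ D).inv_mem (mem_sup_right hd))
    have h7 := ((h2 i).sup hD) a ha _ h6
    have h8 : a * d * x * (a * d)⁻¹ = a * (d * x * d⁻¹) * a⁻¹ := by group
    rw [h8]; exact h7
  · intro i hi
    exact (h4 i hi).sup (hS _ (by omega)) hD
  · intro i hi
    exact (h5 i hi).sup (hS _ (by omega)) hD

lemma PS.sup {K N D : Subgroup G} (h : PS p K N) (hD : Inv N D) : PS p (K ⊔ D) (N ⊔ D) := by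
  obtain ⟨m, hm⟩ := h
  exact ⟨m, RLp_sup hm hD⟩

lemma PS.refl (N : Subgroup G) : PS p N N := ⟨0, RLp.refl _ _⟩

lemma PS.le {K N : Subgroup G} (h : PS p K N) : K ≤ N := by
  obtain ⟨m, hm⟩ := h; exact hm.le

lemma PS.inv {K N : Subgroup G} (h : PS p K N) : Inv N K := by
  obtain ⟨m, hm⟩ := h; exact hm.inv

lemma PS.trans [Finite G] {K M N : Subgroup G} (h : PS p K M) (h' : PS p M N) (hK : Inv N K) :
    PS p K N := by
  obtain ⟨m, hm⟩ := h
  obtain ⟨m', hm'⟩ := h'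
  exact ⟨m + m', hm.trans hm' hK⟩

lemma PS.restrict {K N N' : Subgroup G} (h : PS p K N) (hN : N' ≤ N) : PS p (K ⊓ N') N' := by
  obtain ⟨m, hm⟩ := h
  exact ⟨m, hm.restrict hN⟩

lemma PS.enlarge {K K' N : Subgroup G} (h : PS p K N) (hK : K ≤ K') (hK' : K' ≤ N)
    (hi : Inv N K') : PS p K' N := by
  obtain ⟨m, hm⟩ := h
  exact ⟨m, hm.enlarge hK hK' hi⟩

lemma PS.map {H : Type} [Group H] (f : G →* H) {K N : Subgroup G} (h : PS p K N) :
    PS p (K.map f) (N.map f) := by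
  obtain ⟨m, hm⟩ := h
  exact ⟨m, hm.map f⟩

lemma PS.comap {H : Type} [Group H] (f : G →* H) {K N : Subgroup H} (h : PS p K N) :
    PS p (K.comap f) (N.comap f) := by
  obtain ⟨m, hm⟩ := h
  exact ⟨m, hm.comap f⟩

lemma PS.inf {K K' N : Subgroup G} (h : PS p K N) (h' : PS p K' N) : PS p (K ⊓ K') N := by
  obtain ⟨m, hm⟩ := h
  obtain ⟨m', hm'⟩ := h'
  exact ⟨max m m', (hm.mono_n (le_max_left _ _)).inf (hm'.mono_n (le_max_right _ _))⟩

lemma PS.of_PF {K N : Subgroup G} (h : PF p K N) (hle : K ≤ N) (hi : Inv N K) : PS p K N :=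
  ⟨1, RLp.of_PF h hle hi⟩

lemma PS.of_PF' {K N : Subgroup G} (h : PF' p K N) (hle : K ≤ N) (hi : Inv N K) : PS p K N :=
  ⟨0, RLp.of_PF' 0 h hle hi⟩

/-- abelian groups are `p`-soluble -/
lemma PS.of_comm [Finite G] [hp : Fact p.Prime] {N : Subgroup G}
    (h : ∀ x ∈ N, ∀ y ∈ N, x * y = y * x) : PS p ⊥ N := by
  let A : Subgroup G :=
    { carrier := {x | x ∈ N ∧ ∃ m : ℕ, m.Coprime p ∧ x ^ m = 1}
      one_mem' := ⟨N.one_mem, 1, Nat.coprime_one_left p, by simp⟩
      mul_mem' := by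
        rintro x y ⟨hx, m, hm, hm'⟩ ⟨hy, l, hl, hl'⟩
        refine ⟨N.mul_mem hx hy, m * l, Nat.Coprime.mul_left hm hl, ?_⟩
        have hc : Commute x y := h x hx y hy
        rw [hc.mul_pow, pow_mul, hm', one_pow, one_mul, mul_comm, pow_mul, hl', one_pow]
      inv_mem' := by
        rintro x ⟨hx, m, hm, hm'⟩
        exact ⟨N.inv_mem hx, m, hm, by rw [inv_pow, hm', inv_one]⟩ }
  have hA : A ≤ N := fun x hx => hx.1
  have hAN : Inv N A := by
    intro g hg x hx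
    have : g * x * g⁻¹ = x := by rw [h g hg x (hA hx)]; group
    rw [this]; exact hx
  have h1 : PS p ⊥ A := by
    refine PS.of_PF' ?_ bot_le (Inv.bot A)
    rintro x ⟨-, m, hm, hm'⟩
    exact ⟨m, hm, by rw [hm']; exact one_mem _⟩
  have h2 : PS p A N := by
    refine PS.of_PF ?_ hA hAN
    intro x hx
    refine ⟨(orderOf x).factorization p, N.pow_mem hx _, orderOf x / p ^ (orderOf x).factorization p,
      ?_, ?_⟩
    · exact (Nat.coprime_ordCompl hp.out (orderOf_pos x).ne').symm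
    · rw [← pow_mul, Nat.ordProj_mul_ordCompl_eq_self, pow_orderOf_eq_one]
  exact h1.trans h2 (Inv.bot N)

/-- `g` normalises the subgroup `S` -/
def nz (S : Subgroup G) : Subgroup G where
  carrier := {g | ∀ x, x ∈ S ↔ g * x * g⁻¹ ∈ S}
  one_mem' := by intro x; simp
  mul_mem' := by
    intro a b ha hb x
    rw [hb x, ha (b * x * b⁻¹)]
    have : a * (b * x * b⁻¹) * a⁻¹ = a * b * x * (a * b)⁻¹ := by group
    rw [this]
  inv_mem' := by
    intro a ha x
    rw [ha (a⁻¹ * x * a⁻¹⁻¹)]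
    have : a * (a⁻¹ * x * a⁻¹⁻¹) * a⁻¹ = x := by group
    rw [this]

lemma mem_nz {S : Subgroup G} {g : G} : g ∈ nz S ↔ ∀ x, x ∈ S ↔ g * x * g⁻¹ ∈ S := Iff.rfl

lemma nz_inv (S : Subgroup G) : Inv (nz S) S := fun g hg x hx => (hg x).1 hx

lemma le_nz_of_inv {S N : Subgroup G} (h : Inv N S) : N ≤ nz S := by
  intro g hg x
  constructor
  · exact h g hg x
  · intro hx
    have := h g⁻¹ (N.inv_mem hg) _ hx
    have e : g⁻¹ * (g * x * g⁻¹) * g⁻¹⁻¹ = x := by group
    rwa [e] at this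

/-- Frattini argument, relative form -/
lemma frattini [Finite G] [hp : Fact p.Prime] {A M : Subgroup G} (hM : Inv A M) (P : Sylow p M) :
    ∀ a ∈ A, ∃ m ∈ M, m * a ∈ nz ((P : Subgroup M).map M.subtype) := by
  intro a ha
  let α : MulAut M := resAut (MulAut.conj a) M (fun t ht => by
    rw [MulAut.conj_apply]; exact hM a ha t ht)
  obtain ⟨m, hm⟩ := MulAction.exists_smul_eq M (α • P) P
  refine ⟨m, m.2, ?_⟩
  have key : ∀ x : M, (m : M) * α x * m⁻¹ ∈ (P : Subgroup M) ↔ x ∈ (P : Subgroup M) := by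
    intro x
    have h1 : ((m • α • P : Sylow p M) : Subgroup M) = (P : Subgroup M) := by rw [hm]
    have h2 : ((m • α • P : Sylow p M) : Subgroup M) = MulAut.conj m • (α • (P : Subgroup M)) := rfl
    have e1 : (m : M) * α x * m⁻¹ = (MulAut.conj m • α • x) := by
      simp [MulAut.smul_def]
    rw [e1]
    nth_rewrite 1 [← h1]
    rw [h2, Subgroup.smul_mem_pointwise_smul_iff, Subgroup.smul_mem_pointwise_smul_iff]
  rw [mem_nz]
  intro x
  constructor
  · rintro ⟨y, hy, rfl⟩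
    refine ⟨m * α y * m⁻¹, (key y).2 hy, ?_⟩
    simp [α, mul_assoc]
  · rintro ⟨y, hy, hxy⟩
    have h1 : (m : G) * a * x * (m * a)⁻¹ ∈ M := by rw [← hxy]; exact y.2
    have h2 : a * x * a⁻¹ ∈ M := by
      have := M.mul_mem (M.mul_mem (M.inv_mem m.2) h1) m.2
      have e : (m : G)⁻¹ * (m * a * x * (m * a)⁻¹) * m = a * x * a⁻¹ := by group
      rwa [e] at this
    have h3 : x ∈ M := (hM.conj_iff ha x).1 h2
    refine ⟨⟨x, h3⟩, (key ⟨x, h3⟩).1 ?_, rfl⟩
    have e : (m : M) * α ⟨x, h3⟩ * m⁻¹ = y := by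
      apply Subtype.ext
      simp only [coe_subtype] at hxy
      rw [hxy]
      simp [α, mul_assoc]
    rw [e]; exact hy

/-- a Sylow subgroup of `M` has `p'`-index in its normaliser -/
lemma sylow_PF' [Finite G] [hp : Fact p.Prime] {M : Subgroup G} (P : Sylow p M) :
    PF' p ((P : Subgroup M).map M.subtype) (M ⊓ nz ((P : Subgroup M).map M.subtype)) := by
  rintro x ⟨hxM, hx⟩
  let Q : Subgroup M := normalizer ((P : Subgroup M) : Set M)
  have hxQ : (⟨x, hxM⟩ : M) ∈ Q := by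
    rw [mem_normalizer_iff]
    intro y
    have h1 := hx y
    constructor
    · intro hy
      obtain ⟨z, hz, hz'⟩ := h1.1 ⟨y, hy, rfl⟩
      have : (⟨x, hxM⟩ : M) * y * (⟨x, hxM⟩ : M)⁻¹ = z := Subtype.ext hz'.symm
      rw [this]; exact hz
    · intro hy
      obtain ⟨z, hz, hz'⟩ := h1.2 ⟨_, hy, rfl⟩
      have : y = z := Subtype.ext hz'.symm
      rw [this]; exact hz
  have hPQ : (P : Subgroup M) ≤ Q := le_normalizer
  have hnorm : ((P : Subgroup M).subgroupOf Q).Normal := Subgroup.normal_in_normalizer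
  refine ⟨((P : Subgroup M).subgroupOf Q).index, ?_, ?_⟩
  · have h1 : ((P : Subgroup M).subgroupOf Q).index ∣ (P : Subgroup M).index :=
      Subgroup.relIndex_dvd_index_of_le hPQ
    exact ((Nat.Prime.coprime_iff_not_dvd hp.out).2 (fun h => P.not_dvd_index (h.trans h1))).symm
  · have h2 := Subgroup.pow_index_mem ((P : Subgroup M).subgroupOf Q) (⟨⟨x, hxM⟩, hxQ⟩ : Q)
    rw [Subgroup.mem_subgroupOf] at h2
    exact ⟨_, h2, rfl⟩

end

end Pool.Agent.TH905.NPL
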