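import Pool.Agent.TH905.NPL.Step
import Pool.Agent.Helper407.PLFinal

set_option autoImplicit false

/-! The bound for the non-`p`-soluble length. -/

namespace Pool.Agent.TH905.NPL

open Pool.Agent.Helper407.PL Subgroup
open Pool.Agent.H898.AutSyl (MinNormal)

/-- `B/A` is a direct product of nonabelian simple groups of order divisible by `p` -/
def SS (p : ℕ) {G : Type} [Group G] (A B : Subgroup G) : Prop :=
  ∃ (m : ℕ) (n : Fin m → ℕ) (T : (j : Fin m) → Subgroup (Equiv.Perm (Fin (n j))))
    (φ : ↥B →* ((j : Fin m) → ↥(T j))),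
    Function.Surjective φ ∧ φ.ker = A.subgroupOf B ∧
    ∀ j, IsSimpleGroup ↥(T j) ∧ (∃ a b : ↥(T j), a * b ≠ b * a) ∧ p ∣ Nat.card ↥(T j)

/-- the non-`p`-soluble length is at most `N` -/
def Lam (p N : ℕ) (G : Type) [Group G] : Prop :=
  ∃ s : ℕ → Subgroup G, s 0 = ⊥ ∧ s (2 * N + 1) = ⊤ ∧ (∀ i, s i ≤ s (i + 1)) ∧
    (∀ i, (s i).Normal) ∧ (∀ i ≤ N, PS p (s (2 * i)) (s (2 * i + 1))) ∧
    (∀ i < N, SS p (s (2 * i + 1)) (s (2 * i + 2)))

/-- `S` is a quotient of a subnormal subgroup of `G` (for simple `S`: a composition factor) -/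
def SubnormalQuotient (G S : Type) [Group G] [Group S] : Prop :=
  ∃ M : Subgroup G, M.IsSubnormal ∧ ∃ f : M →* S, Function.Surjective f

section
variable {G : Type} [Group G] {p : ℕ}

lemma SubnormalQuotient.of_surj {G' S : Type} [Group G'] [Group S] {f : G →* G'}
    (hf : Function.Surjective f) (h : SubnormalQuotient G' S) : SubnormalQuotient G S := by
  obtain ⟨M, hM, g, hg⟩ := h
  refine ⟨M.comap f, hM.comap f, g.comp (f.subgroupComap M), ?_⟩
  intro y
  obtain ⟨x, rfl⟩ := hg y
  obtain ⟨z, hz⟩ := hf x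
  exact ⟨⟨z, by rw [mem_comap, hz]; exact x.2⟩, by
    simp only [MonoidHom.comp_apply]
    congr 1
    exact Subtype.ext hz⟩

lemma SS.comap {G' : Type} [Group G'] {f : G →* G'} (hf : Function.Surjective f)
    {A B : Subgroup G'} (h : SS p A B) : SS p (A.comap f) (B.comap f) := by
  obtain ⟨m, n, T, φ, h1, h2, h3⟩ := h
  refine ⟨m, n, T, φ.comp (f.subgroupComap B), ?_, ?_, h3⟩
  · intro y
    obtain ⟨x, rfl⟩ := h1 y
    obtain ⟨z, hz⟩ := hf x
    exact ⟨⟨z, by rw [mem_comap, hz]; exact x.2⟩, by
      simp only [MonoidHom.comp_apply]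
      congr 1
      exact Subtype.ext hz⟩
  · rw [← MonoidHom.comap_ker, h2]
    ext x
    simp only [mem_comap, mem_subgroupOf]
    rfl

/-- every finite group is a permutation group -/
lemma exists_perm (S : Type) [Group S] [Finite S] :
    ∃ (n : ℕ) (T : Subgroup (Equiv.Perm (Fin n))), Nonempty (S ≃* T) := by
  have e : S ≃ Fin (Nat.card S) := Finite.equivFin S
  let f : S →* Equiv.Perm (Fin (Nat.card S)) :=
    (e.permCongrHom : Equiv.Perm S ≃* Equiv.Perm (Fin (Nat.card S))).toMonoidHom.comp
      (MulAction.toPermHom S S)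
  have hf : Function.Injective f := by
    have h1 : Function.Injective (MulAction.toPermHom S S) := MulAction.toPerm_injective
    exact (e.permCongrHom : Equiv.Perm S ≃* Equiv.Perm (Fin (Nat.card S))).injective.comp h1
  exact ⟨Nat.card S, f.range, ⟨MonoidHom.ofInjective hf⟩⟩

/-- the socle is a direct product of nonabelian simple groups -/
lemma SS_socle [Finite G] [hp : Fact p.Prime] (hR : Rad1 p G) : SS p (⊥ : Subgroup G) (So G) := by
  classical
  let I := {S : Subgroup G // S ∈ Om G}
  have hI : Finite I := inferInstance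
  let m := Nat.card I
  let ι : Fin m ≃ I := (Finite.equivFin I).symm
  let H : Fin m → Subgroup G := fun i => (ι i).1
  have hcomm : Pairwise fun i j : Fin m => ∀ x y : G, x ∈ H i → y ∈ H j → Commute x y := by
    intro i j hij x y hx hy
    exact Om_comm (ι i).2 (ι j).2 (fun h => hij (ι.injective (Subtype.ext h))) x hx y hy
  have hind : iSupIndep H := by
    intro i
    rw [disjoint_iff, eq_bot_iff]
    rintro x ⟨hx, hx'⟩
    have h5 : (⨆ j, ⨆ (_ : j ≠ i), H j) ≤ centralizer (H i : Set G) := by
      refine iSup_le (fun j => iSup_le (fun hj => ?_))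
      intro y hy
      rw [mem_centralizer_iff]
      intro z hz
      exact Om_comm (ι i).2 (ι j).2 (fun h => hj (ι.injective (Subtype.ext h.symm))) z hz y hy
    rw [mem_bot]
    refine Om_center hR (ι i).2 hx ?_
    intro y hy
    exact (mem_centralizer_iff.mp (h5 hx') y hy).symm
  have hinj := injective_noncommPiCoprod_of_iSupIndep (hcomm := hcomm) hind
  have hrange : (noncommPiCoprod hcomm).range = So G := by
    rw [noncommPiCoprod_range, So, sSup_eq_iSup']
    exact ι.iSup_congr (fun _ => rfl)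
  -- permutation representations
  have hperm : ∀ i : Fin m, ∃ (n : ℕ) (T : Subgroup (Equiv.Perm (Fin n))), Nonempty (H i ≃* T) :=
    fun i => exists_perm (H i)
  choose n T e using hperm
  let E : So G ≃* (∀ i : Fin m, H i) :=
    ((MonoidHom.ofInjective hinj).trans (MulEquiv.subgroupCongr hrange)).symm
  let Φ : So G →* ((j : Fin m) → ↥(T j)) :=
    MonoidHom.pi fun j => ((e j).some.toMonoidHom).comp
      ((Pi.evalMonoidHom (fun i : Fin m => H i) j).comp E.toMonoidHom)
  have hΦ : ∀ x j, Φ x j = (e j).some (E x j) := fun x j => rfl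
  refine ⟨m, n, T, Φ, ?_, ?_, ?_⟩
  · intro y
    refine ⟨E.symm (fun i => (e i).some.symm (y i)), ?_⟩
    ext j : 1
    rw [hΦ, MulEquiv.apply_symm_apply, MulEquiv.apply_symm_apply]
  · rw [(bot_subgroupOf (So G))]
    rw [eq_bot_iff]
    intro x hx
    rw [mem_bot]
    apply E.injective
    ext j : 1
    apply (e j).some.injective
    rw [← hΦ, MonoidHom.mem_ker.1 hx, map_one]
    simp
  · intro j
    have hS := (ι j).2
    refine ⟨(MulEquiv.isSimpleGroup_congr (e j).some).mp (Om_simple hS), ?_, ?_⟩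
    · obtain ⟨a, ha, b, hb, hab⟩ := Om_nonab hR hS
      refine ⟨(e j).some ⟨a, ha⟩, (e j).some ⟨b, hb⟩, ?_⟩
      rw [← map_mul, ← map_mul]
      intro h
      exact hab (congrArg Subtype.val ((e j).some.injective h))
    · rw [← Nat.card_congr (e j).some.toEquiv]
      exact Om_dvd hR hS

/-- adding a `p`-soluble normal subgroup at the bottom -/
lemma Lam.of_surj [Finite G] {G' : Type} [Group G'] {f : G →* G'} (hf : Function.Surjective f)
    (hker : PS p ⊥ f.ker) {N : ℕ} (h : Lam p N G') : Lam p N G := by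
  obtain ⟨s, s0, s1, s2, s3, s4, s5⟩ := h
  refine ⟨fun i => if i = 0 then ⊥ else (s i).comap f, by simp, ?_, ?_, ?_, ?_, ?_⟩
  · dsimp only
    rw [if_neg (by omega), s1, comap_top]
  · rintro (_ | i)
    · simp
    · dsimp only
      rw [if_neg (by omega), if_neg (by omega)]
      exact comap_mono (s2 _)
  · intro i
    dsimp only
    split_ifs
    · infer_instance
    · exact (s3 i).comap f
  · rintro (_ | i) hi
    · have h1 := (s4 0 hi).comap f
      simp only [mul_zero, s0, MonoidHom.comap_bot, zero_add] at h1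
      simp only [mul_zero, if_true, zero_add, if_neg one_ne_zero]
      exact hker.trans h1 (Inv.bot _)
    · dsimp only
      rw [if_neg (by omega), if_neg (by omega)]
      exact (s4 (i + 1) hi).comap f
  · intro i hi
    dsimp only
    rw [if_neg (by omega), if_neg (by omega)]
    exact (s5 i hi).comap hf

/-- one more layer -/
lemma Lam.step [Finite G] [hp : Fact p.Prime] (hR : Rad1 p G)
    (hOut : ∀ S ∈ Om G, PS p (⊥ : Subgroup (Out S)) ⊤) {N : ℕ} (h : Lam p N (G ⧸ KK G)) :
    Lam p (N + 1) G := by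
  obtain ⟨s, s0, s1, s2, s3, s4, s5⟩ := h
  let π : G →* G ⧸ KK G := QuotientGroup.mk' (KK G)
  have hπ : Function.Surjective π := QuotientGroup.mk'_surjective _
  have hker : π.ker = KK G := QuotientGroup.ker_mk' _
  have hTK : So G ≤ KK G := So_le_KP _
  refine ⟨fun i => if i ≤ 1 then ⊥ else if i = 2 then So G else (s (i - 2)).comap π,
    by simp, ?_, ?_, ?_, ?_, ?_⟩
  · dsimp only
    rw [if_neg (by omega), if_neg (by omega), show 2 * (N + 1) + 1 - 2 = 2 * N + 1 by omega, s1,
      comap_top]
  · intro i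
    dsimp only
    by_cases h1 : i ≤ 1
    · rw [if_pos h1]; exact bot_le
    · by_cases h2 : i = 2
      · subst h2
        rw [if_neg (by omega), if_pos rfl, if_neg (by omega), if_neg (by omega)]
        refine hTK.trans (fun x hx => ?_)
        have h3 : π x = 1 := by rw [← hker] at hx; exact hx
        rw [mem_comap, h3]; exact one_mem _
      · rw [if_neg h1, if_neg h2, if_neg (by omega), if_neg (by omega),
          show i + 1 - 2 = i - 2 + 1 by omega]
        exact comap_mono (s2 _)
  · intro i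
    dsimp only
    split_ifs
    · infer_instance
    · exact So_normal
    · exact (s3 _).comap π
  · intro i hi
    dsimp only
    by_cases h0 : i = 0
    · subst h0
      simp only [mul_zero, zero_add, if_pos (Nat.zero_le 1), if_pos (le_refl 1)]
      exact PS.refl _
    by_cases h1 : i = 1
    · subst h1
      rw [if_neg (by omega), if_pos (by omega), if_neg (by omega), if_neg (by omega)]
      have h1 := (s4 0 (Nat.zero_le _)).comap π
      simp only [mul_zero, s0, MonoidHom.comap_bot, zero_add] at h1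
      rw [hker] at h1
      have := So_normal (G := G)
      exact (PS_kernel hR hOut).trans h1 (Inv.of_normal _ _)
    · rw [if_neg (by omega), if_neg (by omega), if_neg (by omega), if_neg (by omega),
        show 2 * i - 2 = 2 * (i - 1) by omega, show 2 * i + 1 - 2 = 2 * (i - 1) + 1 by omega]
      exact (s4 (i - 1) (by omega)).comap π
  · intro i hi
    dsimp only
    by_cases h0 : i = 0
    · subst h0
      rw [if_pos (by omega), if_neg (by omega), if_pos (by omega)]
      exact SS_socle hR
    · rw [if_neg (by omega), if_neg (by omega), if_neg (by omega), if_neg (by omega),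
        show 2 * i + 1 - 2 = 2 * (i - 1) + 1 by omega,
        show 2 * i + 2 - 2 = 2 * (i - 1) + 2 by omega]
      exact (s5 (i - 1) (by omega)).comap hπ

/-- existence of the `p`-soluble radical -/
lemma exists_rad [Finite G] : ∃ (R : Subgroup G) (_ : R.Normal), PS p ⊥ R ∧ Rad1 p (G ⧸ R) := by
  let X : Set (Subgroup G) := {R | R.Normal ∧ PS p ⊥ R}
  have hne : X.Nonempty := ⟨⊥, inferInstance, PS.refl _⟩
  obtain ⟨R, hR, hmax⟩ := Set.Finite.exists_maximalFor (fun M : Subgroup G => Nat.card M) X
    (Set.toFinite X) hne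
  have hRn := hR.1
  refine ⟨R, hR.1, hR.2, ?_⟩
  intro A hA hAs
  let π : G →* G ⧸ R := QuotientGroup.mk' R
  have hπ : Function.Surjective π := QuotientGroup.mk'_surjective _
  have hker : π.ker = R := QuotientGroup.ker_mk' _
  have h1 := hAs.comap π
  rw [MonoidHom.comap_bot, hker] at h1
  have h2 : A.comap π ∈ X := ⟨hA.comap π, hR.2.trans h1 (Inv.bot _)⟩
  have h3 : Nat.card (A.comap π) ≤ Nat.card R :=
    hmax h2 (Nat.card_le_card_of_injective _ (inclusion_injective h1.le))
  have h4 : R = A.comap π := eq_of_le_of_card_ge h1.le h3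
  rw [← map_comap_eq_self_of_surjective hπ A]
  exact (Subgroup.map_eq_bot_iff _).2 (le_of_eq (h4.symm.trans hker.symm))

/-- the condition on the outer automorphism groups of the composition factors -/
def Cond (p : ℕ) (G : Type) [Group G] : Prop :=
  ∀ (S : Type) [Group S], IsSimpleGroup S → (∃ a b : S, a * b ≠ b * a) → p ∣ Nat.card S →
    SubnormalQuotient G S → PS p (⊥ : Subgroup (Out S)) ⊤

lemma Cond.of_surj {G' : Type} [Group G'] {f : G →* G'} (hf : Function.Surjective f)
    (h : Cond p G) : Cond p G' := fun S _ h1 h2 h3 h4 => h S h1 h2 h3 (h4.of_surj hf)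

lemma Cond.out [Finite G] [hp : Fact p.Prime] (h : Cond p G) (hR : Rad1 p G) :
    ∀ S ∈ Om G, PS p (⊥ : Subgroup (Out S)) ⊤ := by
  intro S hS
  refine h S (Om_simple hS) ?_ (Om_dvd hR hS) ⟨S, Om_subnormal hS, MonoidHom.id _,
    Function.surjective_id⟩
  obtain ⟨a, ha, b, hb, hab⟩ := Om_nonab hR hS
  exact ⟨⟨a, ha⟩, ⟨b, hb⟩, fun h => hab (congrArg Subtype.val h)⟩

lemma AL_zero [Finite G] [hp : Fact p.Prime] (h : AL p 0 G) : Lam p 0 G := by
  have h1 : PS p (⊥ : Subgroup G) ⊤ := by
    refine PS.of_PF' ?_ bot_le (Inv.bot _)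
    intro x _
    have h2 : PS p ⊥ (zpowers x) := by
      apply PS.of_comm
      rintro _ ⟨a, rfl⟩ _ ⟨b, rfl⟩
      exact (Commute.zpow_zpow_self x a b)
    obtain ⟨S, s0, s1, -, -, s4, -⟩ := h _ h2
    have h3 := s4 0 le_rfl x (by
      have : S (2 * 0 + 1) = zpowers x := s1
      rw [this]; exact mem_zpowers x)
    rwa [mul_zero, s0] at h3
  refine ⟨fun i => if i = 0 then ⊥ else ⊤, by simp, by simp, ?_, ?_, ?_, ?_⟩
  · rintro (_ | i)
    · simp
    · simp
  · intro i; dsimp only; split_ifs <;> infer_instance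
  · intro i hi
    have : i = 0 := by omega
    subst this
    simpa using h1
  · intro i hi; omega

end

/-- the second half of the induction step -/
theorem lam_half {p : ℕ} [hp : Fact p.Prime] (n : ℕ)
    (ih : ∀ (G : Type) [Group G] [Finite G], Cond p G → AL p n G → Lam p (2 * n) G)
    (G : Type) [Group G] [Finite G] (hC : Cond p G) (h : BL p n G) : Lam p (2 * n + 1) G := by
  obtain ⟨R, hRn, hRs, hR⟩ := exists_rad (G := G) (p := p)
  have s1 := QuotientGroup.mk'_surjective R
  have h1 : BL p n (G ⧸ R) := h.quot s1 (by rw [QuotientGroup.ker_mk']; exact hRs)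
  have c1 : Cond p (G ⧸ R) := hC.of_surj s1
  refine Lam.of_surj s1 (by rw [QuotientGroup.ker_mk']; exact hRs) ?_
  exact Lam.step (N := 2 * n) hR (c1.out hR)
    (ih _ (c1.of_surj (QuotientGroup.mk'_surjective _)) (step_two hR (c1.out hR) h1))

/-- **Reduction**: if all `p`-soluble subgroups of `G` have `p`-length at most `n`, then the
non-`p`-soluble length of `G` is at most `2n`. -/
theorem lam_bound {p : ℕ} [hp : Fact p.Prime] (n : ℕ) : ∀ (G : Type) [Group G] [Finite G],
    Cond p G → AL p n G → Lam p (2 * n) G := by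
  induction n with
  | zero => intro G _ _ _ h; exact AL_zero h
  | succ n ih =>
    intro G _ _ hC h
    obtain ⟨R, hRn, hRs, hR⟩ := exists_rad (G := G) (p := p)
    have s1 := QuotientGroup.mk'_surjective R
    have h1 : AL p (n + 1) (G ⧸ R) := h.quot s1 (by rw [QuotientGroup.ker_mk']; exact hRs)
    have c1 : Cond p (G ⧸ R) := hC.of_surj s1
    refine Lam.of_surj s1 (by rw [QuotientGroup.ker_mk']; exact hRs) ?_
    exact Lam.step (N := 2 * n + 1) hR (c1.out hR)
      (lam_half n ih _ (c1.of_surj (QuotientGroup.mk'_surjective _)) (step_one hR (c1.out hR) h1))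

/-- a law on the Sylow subgroups bounds the `p`-length of the `p`-soluble subgroups -/
theorem exists_AL {p : ℕ} [hp : Fact p.Prime] {k : ℕ} {w : FreeGroup (Fin k)} (hw : w ≠ 1) :
    ∃ n : ℕ, ∀ (G : Type) [Group G] [Finite G],
      (∀ (P : Sylow p G) (f : Fin k → ↥(P : Subgroup G)), FreeGroup.lift f w = 1) →
      AL p n G := by
  let w' : FreeGroup ℕ := FreeGroup.map (fun i : Fin k => (i : ℕ)) w
  have hw' : w' ≠ 1 := by
    intro h
    apply hw
    apply FreeGroup.map_injective (f := fun i : Fin k => (i : ℕ)) Fin.val_injective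
    rw [map_one]
    exact h
  obtain ⟨n, hn⟩ := main_bound (p := p) w' hw'
  refine ⟨n, fun G _ _ hlaw H hH => ?_⟩
  have h1 : ∃ m, RLp p m (⊥ : Subgroup H) ⊤ := by
    have := hH.comap H.subtype
    rw [MonoidHom.comap_bot, ker_subtype, ← subgroupOf, subgroupOf_self] at this
    exact this
  have h2 : ∀ f : FreeGroup ℕ →* H, IsPGroup p f.range → f w' = 1 := by
    intro f hf
    have h3 : IsPGroup p (H.subtype.comp f).range := by
      rw [MonoidHom.range_comp]
      exact hf.map _
    obtain ⟨P, hP⟩ := h3.exists_le_sylow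
    let g : Fin k → ↥(P : Subgroup G) := fun i => ⟨f (FreeGroup.of (i : ℕ)), hP ⟨_, rfl⟩⟩
    have h4 := hlaw P g
    have h5 : ((P : Subgroup G).subtype).comp (FreeGroup.lift g) =
        (H.subtype.comp f).comp (FreeGroup.map (fun i : Fin k => (i : ℕ))) := by
      ext i
      simp [g]
    have h6 := congrArg (fun φ => φ w) h5
    simp only [MonoidHom.comp_apply] at h6
    rw [h4, map_one] at h6
    apply Subtype.ext
    exact h6.symm
  have h3 := (hn H h2 h1).map H.subtype
  rw [Subgroup.map_bot, ← MonoidHom.range_eq_map, range_subtype] at h3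
  exact h3

/-- from `p`-soluble sections to explicit chains -/
lemma PS.chain {G : Type} [Group G] [Finite G] {p : ℕ} [hp : Fact p.Prime] {A B : Subgroup G}
    (h : PS p A B) : ∃ (m : ℕ) (H : ℕ → Subgroup G), H 0 = A ∧ H m = B ∧
        ∀ j < m, H j ≤ H (j + 1) ∧ ((H j).subgroupOf (H (j + 1))).Normal ∧
          ((∃ e : ℕ, ((H j).subgroupOf (H (j + 1))).index = p ^ e) ∨
            Nat.Coprime p (((H j).subgroupOf (H (j + 1))).index)) := by
  obtain ⟨m, S, s0, s1, s2, s3, s4, s5⟩ := h
  refine ⟨2 * m + 1, S, s0, s1, fun j hj => ⟨s3 j, ?_, ?_⟩⟩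
  · have h1 : S (j + 1) ≤ B := s1 ▸ chain_le s3 (by omega)
    constructor
    intro x hx g
    rw [mem_subgroupOf] at hx ⊢
    exact s2 j g (h1 g.2) x hx
  · have h1 : S (j + 1) ≤ B := s1 ▸ chain_le s3 (by omega)
    have hn : ((S j).subgroupOf (S (j + 1))).Normal := by
      constructor
      intro x hx g
      rw [mem_subgroupOf] at hx ⊢
      exact s2 j g (h1 g.2) x hx
    rcases Nat.even_or_odd' j with ⟨t, ht | ht⟩
    · right
      have := s4 t (by omega)
      rw [← ht] at this
      exact (PF'_index hn this).symm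
    · left
      have := s5 t (by omega)
      rw [← ht, show 2 * t + 2 = j + 1 by omega] at this
      exact PF_index hn this

/-- from explicit chains to `p`-soluble sections -/
lemma PS.of_chain {G : Type} [Group G] [Finite G] {p : ℕ} {m : ℕ}
    {H : ℕ → Subgroup G} (h : ∀ j < m, H j ≤ H (j + 1) ∧ ((H j).subgroupOf (H (j + 1))).Normal ∧
          ((∃ e : ℕ, ((H j).subgroupOf (H (j + 1))).index = p ^ e) ∨
            Nat.Coprime p (((H j).subgroupOf (H (j + 1))).index))) (h0 : H 0 = ⊥) :
    PS p ⊥ (H m) := by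
  have key : ∀ j ≤ m, PS p ⊥ (H j) := by
    intro j
    induction j with
    | zero => intro _; rw [h0]; exact PS.refl _
    | succ j ih =>
      intro hj
      obtain ⟨h1, h2, h3⟩ := h j (by omega)
      refine (ih (by omega)).trans ?_ (Inv.bot _)
      have hi : Inv (H (j + 1)) (H j) := by
        intro g hg x hx
        exact h2.conj_mem ⟨x, h1 hx⟩ hx ⟨g, hg⟩
      have hp : ∀ x ∈ H (j + 1), x ^ ((H j).subgroupOf (H (j + 1))).index ∈ H j := by
        intro x hx
        have := Subgroup.pow_index_mem ((H j).subgroupOf (H (j + 1))) (⟨x, hx⟩ : H (j + 1))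
        rw [mem_subgroupOf] at this
        simpa using this
      rcases h3 with ⟨e, he⟩ | hc
      · exact PS.of_PF (fun x hx => ⟨e, he ▸ hp x hx⟩) h1 hi
      · exact PS.of_PF' (fun x hx => ⟨_, hc.symm, hp x hx⟩) h1 hi
  exact key m le_rfl

end Pool.Agent.TH905.NPL
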