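import Pool.Agent.TH905.NPL.Soc

set_option autoImplicit false

/-! The kernel of the action on the simple factors, modulo the socle, is `p`-soluble if the
outer automorphism groups of the simple factors are. -/

namespace Pool.Agent.TH905.NPL

open Pool.Agent.Helper407.PL Subgroup
open Pool.Agent.H898.AutSyl (MinNormal)

/-- The inner automorphisms form a normal subgroup. -/
instance inner_normal (S : Type) [Group S] : (MulAut.conj : S →* MulAut S).range.Normal := by
  constructor
  rintro _ ⟨s, rfl⟩ a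
  refine ⟨a s, ?_⟩
  ext x
  simp [MulAut.conj_apply]

/-- The group of outer automorphisms. -/
abbrev Out (S : Type) [Group S] : Type := MulAut S ⧸ (MulAut.conj : S →* MulAut S).range

section
variable {G : Type} [Group G] {p : ℕ}

/-- action of the normaliser -/
def nzHom (S : Subgroup G) : nz S →* MulAut S where
  toFun g :=
    { toFun := fun x => ⟨g * x * (g : G)⁻¹, (g.2 x).1 x.2⟩
      invFun := fun x => ⟨(g : G)⁻¹ * x * g, by
        have := ((nz S).inv_mem g.2 x).1 x.2
        simpa using this⟩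
      left_inv := fun x => Subtype.ext (by simp [mul_assoc])
      right_inv := fun x => Subtype.ext (by simp [mul_assoc])
      map_mul' := fun x y => Subtype.ext (by simp [mul_assoc]) }
  map_one' := by ext x; simp
  map_mul' := by intro a b; ext x; simp [mul_assoc]

lemma nzHom_apply (S : Subgroup G) (g : nz S) (x : S) :
    ((nzHom S g x : S) : G) = g * x * (g : G)⁻¹ := rfl

/-- elements acting on `S` as inner automorphisms -/
def Inn (S : Subgroup G) : Subgroup G :=
  (((MulAut.conj : S →* MulAut S).range).comap (nzHom S)).map (nz S).subtype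

lemma mem_Inn {S : Subgroup G} {g : G} (hg : g ∈ Inn S) :
    ∃ s ∈ S, ∀ x ∈ S, g * x * g⁻¹ = s * x * s⁻¹ := by
  obtain ⟨y, ⟨s, hs⟩, rfl⟩ := hg
  refine ⟨s, s.2, fun x hx => ?_⟩
  have h1 := congrArg (fun f : MulAut S => ((f ⟨x, hx⟩ : S) : G)) hs
  simp only [nzHom_apply] at h1
  rw [coe_subtype, ← h1]
  simp

lemma PS_Inn {S : Subgroup G} (h : PS p (⊥ : Subgroup (Out S)) ⊤) : PS p (Inn S) (nz S) := by
  have h1 := (h.comap ((QuotientGroup.mk' (MulAut.conj : S →* MulAut S).range).comp
    (nzHom S))).map (nz S).subtype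
  have e1 : ((⊤ : Subgroup (Out S)).comap ((QuotientGroup.mk' (MulAut.conj : S →* MulAut S).range).comp
    (nzHom S))).map (nz S).subtype = nz S := by
    rw [comap_top, ← MonoidHom.range_eq_map, range_subtype]
  have e2 : ((⊥ : Subgroup (Out S)).comap ((QuotientGroup.mk' (MulAut.conj : S →* MulAut S).range).comp
    (nzHom S))).map (nz S).subtype = Inn S := by
    rw [MonoidHom.comap_bot, ← MonoidHom.comap_ker, QuotientGroup.ker_mk']
    rfl
  rw [e1, e2] at h1
  exact h1

/-- correction by an element of the socle -/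
lemma exists_correction [Finite G] (F : Finset (Subgroup G)) (hF : ∀ S ∈ F, S ∈ Om G) {g : G}
    (hg : ∀ S ∈ F, g ∈ Inn S) :
    ∃ t ∈ So G, (∀ S ∈ F, ∀ x ∈ S, (t⁻¹ * g) * x = x * (t⁻¹ * g)) ∧
      ∀ S ∈ Om G, S ∉ F → ∀ x ∈ S, t * x = x * t := by
  classical
  induction F using Finset.induction_on with
  | empty => exact ⟨1, one_mem _, by simp, fun S _ _ x _ => by simp⟩
  | insert S₀ F hS₀ ih =>
    obtain ⟨t, htT, ht1, ht2⟩ := ih (fun S hS => hF S (Finset.mem_insert_of_mem hS))
      (fun S hS => hg S (Finset.mem_insert_of_mem hS))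
    obtain ⟨s, hs, hsx⟩ := mem_Inn (hg S₀ (Finset.mem_insert_self _ _))
    have hS₀Om := hF S₀ (Finset.mem_insert_self _ _)
    refine ⟨t * s, (So G).mul_mem htT (le_So hS₀Om hs), ?_, ?_⟩
    · intro S hS x hx
      rcases Finset.mem_insert.1 hS with rfl | hS'
      · have h1 := hsx x hx
        have h2 := ht2 S hS₀Om hS₀ (s * x * s⁻¹) (S.mul_mem (S.mul_mem hs hx) (S.inv_mem hs))
        have h3 : g * x = s * x * s⁻¹ * g := by rw [← h1]; group
        calc (t * s)⁻¹ * g * x = s⁻¹ * (t⁻¹ * (g * x)) := by group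
          _ = s⁻¹ * (t⁻¹ * ((s * x * s⁻¹) * t) * (t⁻¹ * g)) := by rw [h3]; group
          _ = s⁻¹ * (t⁻¹ * (t * (s * x * s⁻¹)) * (t⁻¹ * g)) := by rw [h2]
          _ = x * ((t * s)⁻¹ * g) := by group
      · have h1 := ht1 S hS' x hx
        have hne : S₀ ≠ S := fun h => hS₀ (h ▸ hS')
        have h2 := Om_comm hS₀Om (hF S hS) hne s hs x hx
        calc (t * s)⁻¹ * g * x = s⁻¹ * (t⁻¹ * g * x) := by group
          _ = s⁻¹ * x * (t⁻¹ * g) := by rw [h1]; group
          _ = s⁻¹ * (x * s) * s⁻¹ * (t⁻¹ * g) := by group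
          _ = s⁻¹ * (s * x) * s⁻¹ * (t⁻¹ * g) := by rw [h2]
          _ = x * ((t * s)⁻¹ * g) := by group
    · intro S hS hSF x hx
      have hne : S₀ ≠ S := fun h => hSF (h ▸ Finset.mem_insert_self _ _)
      have h1 := ht2 S hS (fun h => hSF (Finset.mem_insert_of_mem h)) x hx
      have h2 := Om_comm hS₀Om hS hne s hs x hx
      rw [mul_assoc, h2, ← mul_assoc, h1, mul_assoc]

/-- the kernel modulo the socle is `p`-soluble -/
theorem PS_kernel [Finite G] [hp : Fact p.Prime] (hR : Rad1 p G)
    (hOut : ∀ S ∈ Om G, PS p (⊥ : Subgroup (Out S)) ⊤) :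
    PS p (So G) (KP (G := G) fun _ => True) := by
  classical
  let K : Subgroup G := KP (G := G) fun _ => True
  have hfin : Finite (Subgroup G) := inferInstance
  have key : ∀ F : Finset (Subgroup G), (∀ S ∈ F, S ∈ Om G) → PS p (K ⊓ F.inf Inn) K := by
    intro F
    induction F using Finset.induction_on with
    | empty =>
      intro _
      rw [Finset.inf_empty, inf_top_eq]
      exact PS.refl K
    | insert S F hSF ih =>
      intro hF
      have h1 := ih (fun S hS => hF S (Finset.mem_insert_of_mem hS))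
      have hS := hF S (Finset.mem_insert_self _ _)
      have h2 : PS p (Inn S ⊓ K) K := (PS_Inn (hOut S hS)).restrict (fun g hg => hg S hS trivial)
      have h3 := h1.inf h2
      rw [Finset.inf_insert]
      have e : K ⊓ F.inf Inn ⊓ (Inn S ⊓ K) = K ⊓ (Inn S ⊓ F.inf Inn) := by
        ext x
        simp only [mem_inf]
        tauto
      rw [e] at h3
      exact h3
  let F : Finset (Subgroup G) := (Set.toFinite (Om G)).toFinset
  have hF : ∀ S, S ∈ F ↔ S ∈ Om G := fun S => by simp [F]
  have h1 := key F (fun S hS => (hF S).1 hS)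
  refine h1.enlarge ?_ (So_le_KP _) ?_
  · intro g hg
    obtain ⟨t, ht, h2, -⟩ := exists_correction F (fun S hS => (hF S).1 hS)
      (g := g) (fun S hS => by
        have h3 : F.inf Inn ≤ Inn S := Finset.inf_le hS
        exact h3 hg.2)
    have h3 := Om_cent hR (x := t⁻¹ * g) (fun S hS => h2 S ((hF S).2 hS))
    have h4 : g = t := by
      have := congrArg (fun z => t * z) h3
      simpa using this
    rw [h4]; exact ht
  · have := So_normal (G := G)
    exact Inv.of_normal _ _

end

end Pool.Agent.TH905.NPL
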