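import Pool.Agent.TH905.NPL.Base
import Pool.Agent.H898.AutSyl3

set_option autoImplicit false

/-! The socle of a finite group with trivial `p`-soluble radical. -/

namespace Pool.Agent.TH905.NPL

open Pool.Agent.Helper407.PL Subgroup
open Pool.Agent.H898.AutSyl (MinNormal Core exists_minNormal socle_eq_top center_eq_bot
  core_of_char eq_top_of_minNormal)
open scoped Pointwise

/-- the `p`-soluble radical is trivial -/
def Rad1 (p : ℕ) (G : Type) [Group G] : Prop := ∀ A : Subgroup G, A.Normal → PS p ⊥ A → A = ⊥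

/-- the simple factors of the minimal normal subgroups -/
def Om (G : Type) [Group G] : Set (Subgroup G) :=
  {S | ∃ N : Subgroup G, MinNormal N ∧ ∃ T : Subgroup N, MinNormal T ∧ S = T.map N.subtype}

section
variable {G : Type} [Group G] [Finite G] {p : ℕ} [hp : Fact p.Prime]

omit [Finite G] in
lemma min_char {N : Subgroup G} (hN : MinNormal N) :
    ∀ U : Subgroup N, U.Characteristic → U = ⊥ ∨ U = ⊤ := by
  intro U hU
  by_cases h0 : U = ⊥
  · exact Or.inl h0
  right
  have hNn := hN.2.1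
  have h1 : U.map N.subtype = N := by
    apply hN.2.2
    · infer_instance
    · exact map_subtype_le U
    · intro h
      exact h0 ((map_eq_bot_iff_of_injective U N.subtype_injective).mp h)
  rw [eq_top_iff]
  intro x _
  have h2 : (x : G) ∈ U.map N.subtype := by rw [h1]; exact x.2
  obtain ⟨u, hu, hu'⟩ := h2
  have : u = x := Subtype.ext hu'
  rw [← this]; exact hu

lemma min_nonab (hR : Rad1 p G) {N : Subgroup G} (hN : MinNormal N) : ∃ x y : N, x * y ≠ y * x := by
  by_contra hcon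
  push Not at hcon
  apply hN.1
  apply hR N hN.2.1
  apply PS.of_comm
  intro x hx y hy
  exact congrArg Subtype.val (hcon ⟨x, hx⟩ ⟨y, hy⟩)

lemma min_not_coprime (hR : Rad1 p G) {N : Subgroup G} (hN : MinNormal N) :
    ¬ (Nat.card N).Coprime p := by
  intro h
  apply hN.1
  apply hR N hN.2.1
  exact PS.of_PF' (PF'_bot_iff.2 h) bot_le (Inv.bot N)

lemma min_core (hR : Rad1 p G) {N : Subgroup G} (hN : MinNormal N) : Core p N :=
  core_of_char (min_char hN) (min_not_coprime hR hN)

lemma min_nontrivial {N : Subgroup G} (hN : MinNormal N) : Nontrivial N :=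
  (nontrivial_iff_ne_bot N).mpr hN.1

lemma min_soc {N : Subgroup G} (hN : MinNormal N) :
    sSup {T : Subgroup N | MinNormal T} = ⊤ := by
  have := min_nontrivial hN
  exact socle_eq_top (min_char hN)

lemma min_center (hR : Rad1 p G) {N : Subgroup G} (hN : MinNormal N) : center N = ⊥ :=
  center_eq_bot (min_char hN) (min_nonab hR hN)

omit [Finite G] in
lemma simple_map {N : Subgroup G} {T : Subgroup N} (hT : IsSimpleGroup T) :
    IsSimpleGroup (T.map N.subtype) := by
  have e : T ≃* (T.map N.subtype) := T.equivMapOfInjective N.subtype N.subtype_injective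
  exact (MulEquiv.isSimpleGroup_congr e).mp hT

lemma Om_simple {S : Subgroup G} (hS : S ∈ Om G) : IsSimpleGroup S := by
  obtain ⟨N, hN, T, hT, rfl⟩ := hS
  exact simple_map (hT.simple (min_soc hN))

lemma Om_nonab (hR : Rad1 p G) {S : Subgroup G} (hS : S ∈ Om G) :
    ∃ x ∈ S, ∃ y ∈ S, x * y ≠ y * x := by
  obtain ⟨N, hN, T, hT, rfl⟩ := hS
  obtain ⟨x, y, hxy⟩ := hT.nonabelian (min_soc hN) (min_center hR hN)
  refine ⟨(x : N), ⟨x, x.2, rfl⟩, (y : N), ⟨y, y.2, rfl⟩, ?_⟩
  intro h
  apply hxy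
  apply Subtype.ext
  apply Subtype.ext
  exact h

lemma Om_dvd (hR : Rad1 p G) {S : Subgroup G} (hS : S ∈ Om G) : p ∣ Nat.card S := by
  obtain ⟨N, hN, T, hT, rfl⟩ := hS
  have e : T ≃* (T.map N.subtype) := T.equivMapOfInjective N.subtype N.subtype_injective
  rw [← Nat.card_congr e.toEquiv]
  by_contra h
  exact hT.1 (min_core hR hN T hT.2.1 ((Nat.Prime.coprime_iff_not_dvd hp.out).mpr h).symm)

lemma Om_ne_bot {S : Subgroup G} (hS : S ∈ Om G) : S ≠ ⊥ := by
  have := Om_simple hS
  exact (nontrivial_iff_ne_bot S).mp inferInstance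

omit [Finite G] in
lemma Om_subnormal {S : Subgroup G} (hS : S ∈ Om G) : S.IsSubnormal := by
  obtain ⟨N, hN, T, hT, rfl⟩ := hS
  have h1 : N.IsSubnormal := hN.2.1.isSubnormal
  have h2 : T.IsSubnormal := hT.2.1.isSubnormal
  exact IsSubnormal.trans' h2 h1

omit [Finite G] in
lemma Om_comm {S S' : Subgroup G} (hS : S ∈ Om G) (hS' : S' ∈ Om G) (hne : S ≠ S') :
    ∀ x ∈ S, ∀ y ∈ S', x * y = y * x := by
  obtain ⟨N, hN, T, hT, rfl⟩ := hS
  obtain ⟨N', hN', T', hT', rfl⟩ := hS'
  by_cases hNN : N = N'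
  · subst hNN
    have hTT : T ≠ T' := fun h => hne (by rw [h])
    rintro _ ⟨x, hx, rfl⟩ _ ⟨y, hy, rfl⟩
    exact congrArg Subtype.val (hT.commute hT' hTT x hx y hy)
  · rintro _ ⟨x, hx, rfl⟩ _ ⟨y, hy, rfl⟩
    exact hN.commute hN' hNN x x.2 y y.2

lemma Om_center (hR : Rad1 p G) {S : Subgroup G} (hS : S ∈ Om G) {x : G} (hx : x ∈ S)
    (h : ∀ y ∈ S, x * y = y * x) : x = 1 := by
  have hs := Om_simple hS
  obtain ⟨a, ha, b, hb, hab⟩ := Om_nonab hR hS
  rcases hs.eq_bot_or_eq_top_of_normal (center S) inferInstance with h1 | h1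
  · have h2 : (⟨x, hx⟩ : S) ∈ center S := by
      rw [mem_center_iff]
      intro g
      exact Subtype.ext (h g g.2).symm
    rw [h1, mem_bot] at h2
    exact congrArg Subtype.val h2
  · exfalso
    have h2 : (⟨b, hb⟩ : S) ∈ center S := by rw [h1]; trivial
    rw [mem_center_iff] at h2
    exact hab (congrArg Subtype.val (h2 ⟨a, ha⟩))

lemma Om_inf (hR : Rad1 p G) {S S' : Subgroup G} (hS : S ∈ Om G) (hS' : S' ∈ Om G)
    (hne : S ≠ S') {x : G} (hx : x ∈ S) (hx' : x ∈ S') : x = 1 :=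
  Om_center hR hS' hx' (fun y hy => Om_comm hS hS' hne x hx y hy)

omit [Finite G] in
lemma Om_conj {S : Subgroup G} (hS : S ∈ Om G) (g : G) :
    S.map (MulAut.conj g).toMonoidHom ∈ Om G := by
  obtain ⟨N, hN, T, hT, rfl⟩ := hS
  have hNn := hN.2.1
  refine ⟨N, hN, T.map (MulAut.conjNormal g : MulAut N).toMonoidHom, hT.map _, ?_⟩
  rw [map_map, map_map]
  rfl

omit [Finite G] in
lemma nz_of_map {S : Subgroup G} {g : G} (h : S.map (MulAut.conj g).toMonoidHom = S) :
    g ∈ nz S := by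
  rw [mem_nz]
  intro x
  constructor
  · intro hx
    rw [← h]
    exact ⟨x, hx, by simp⟩
  · intro hx
    rw [← h] at hx
    obtain ⟨y, hy, hxy⟩ := hx
    have : y = x := (MulAut.conj g).injective (by simpa using hxy)
    rw [← this]; exact hy

omit [Finite G] in
lemma map_of_nz {S : Subgroup G} {g : G} (h : g ∈ nz S) :
    S.map (MulAut.conj g).toMonoidHom = S := by
  ext x
  constructor
  · rintro ⟨y, hy, rfl⟩
    exact (h y).1 hy
  · intro hx
    refine ⟨g⁻¹ * x * g, ?_, by simp [mul_assoc]⟩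
    have := ((nz S).inv_mem h x).1 hx
    simpa using this

lemma exists_minNormal_le {C : Subgroup G} (hC : C.Normal) (hC0 : C ≠ ⊥) :
    ∃ N : Subgroup G, MinNormal N ∧ N ≤ C := by
  have hne : ({U : Subgroup G | U ≠ ⊥ ∧ U.Normal ∧ U ≤ C} : Set (Subgroup G)).Nonempty :=
    ⟨C, hC0, hC, le_rfl⟩
  obtain ⟨T, hT, hmin⟩ := Set.Finite.exists_minimalFor (fun M : Subgroup G => Nat.card M) _
    (Set.toFinite _) hne
  refine ⟨T, ⟨hT.1, hT.2.1, ?_⟩, hT.2.2⟩
  intro U hU hUT hU0
  exact eq_of_le_of_card_ge hUT (hmin ⟨hU0, hU, hUT.trans hT.2.2⟩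
    (Nat.card_le_card_of_injective _ (inclusion_injective hUT)))

/-- the centraliser of the socle is trivial -/
lemma Om_cent (hR : Rad1 p G) {x : G} (hx : ∀ S ∈ Om G, ∀ y ∈ S, x * y = y * x) : x = 1 := by
  let C : Subgroup G :=
    { carrier := {x | ∀ S ∈ Om G, ∀ y ∈ S, x * y = y * x}
      one_mem' := by intro S _ y _; simp
      mul_mem' := by
        intro a b ha hb S hS y hy
        rw [mul_assoc, hb S hS y hy, ← mul_assoc, ha S hS y hy, mul_assoc]
      inv_mem' := by
        intro a ha S hS y hy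
        have := ha S hS y hy
        rw [inv_mul_eq_iff_eq_mul, ← mul_assoc, this, mul_assoc, mul_inv_cancel, mul_one] }
  have hCn : C.Normal := by
    constructor
    intro c hc g S hS y hy
    have h1 := Om_conj hS g⁻¹
    have h2 : g⁻¹ * y * g ∈ S.map (MulAut.conj g⁻¹).toMonoidHom := ⟨y, hy, by simp⟩
    have h3 := hc _ h1 _ h2
    have h4 : g * (c * (g⁻¹ * y * g)) * g⁻¹ = g * (g⁻¹ * y * g * c) * g⁻¹ := by rw [h3]
    have e1 : g * (c * (g⁻¹ * y * g)) * g⁻¹ = g * c * g⁻¹ * y := by group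
    have e2 : g * (g⁻¹ * y * g * c) * g⁻¹ = y * (g * c * g⁻¹) := by group
    rw [e1, e2] at h4
    exact h4
  by_contra hx1
  have hC0 : C ≠ ⊥ := by
    intro h
    apply hx1
    have : x ∈ C := hx
    rw [h, mem_bot] at this
    exact this
  obtain ⟨N, hN, hNC⟩ := exists_minNormal_le hCn hC0
  have := min_nontrivial hN
  obtain ⟨T, hT⟩ := exists_minNormal N
  have hS : T.map N.subtype ∈ Om G := ⟨N, hN, T, hT, rfl⟩
  obtain ⟨a, ha, b, hb, hab⟩ := Om_nonab hR hS
  exact hab (hNC (map_subtype_le T ha) _ hS b hb)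

/-- the socle -/
def So (G : Type) [Group G] : Subgroup G := sSup (Om G)

/-- the kernel of the permutation action on the simple factors with property `P` -/
def KP (P : Subgroup G → Prop) : Subgroup G where
  carrier := {g | ∀ S ∈ Om G, P S → g ∈ nz S}
  one_mem' := fun S _ _ => (nz S).one_mem
  mul_mem' := fun ha hb S hS hP => (nz S).mul_mem (ha S hS hP) (hb S hS hP)
  inv_mem' := fun ha S hS hP => (nz S).inv_mem (ha S hS hP)

omit [Finite G] in
lemma mem_KP {P : Subgroup G → Prop} {g : G} : g ∈ KP P ↔ ∀ S ∈ Om G, P S → g ∈ nz S := Iff.rfl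

omit [Finite G] in
lemma KP_normal {P : Subgroup G → Prop}
    (hP : ∀ S g, P S → P (S.map (MulAut.conj g).toMonoidHom)) : (KP P).Normal := by
  constructor
  intro k hk g S hS hPS
  have h1 := Om_conj hS g⁻¹
  have h2 := hk _ h1 (hP S g⁻¹ hPS)
  rw [mem_nz] at h2 ⊢
  intro x
  have h3 : ∀ x, x ∈ S ↔ g⁻¹ * x * g ∈ S.map (MulAut.conj g⁻¹).toMonoidHom := by
    intro x
    constructor
    · intro hx; exact ⟨x, hx, by simp⟩
    · rintro ⟨y, hy, hxy⟩
      have h4 : g⁻¹ * y * g = g⁻¹ * x * g := by simpa using hxy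
      have : y = x := by
        have := congrArg (fun z => g * z * g⁻¹) h4
        simpa [mul_assoc] using this
      rw [← this]; exact hy
  rw [h3 x, h3 (g * k * g⁻¹ * x * (g * k * g⁻¹)⁻¹), h2 (g⁻¹ * x * g)]
  have e : k * (g⁻¹ * x * g) * k⁻¹ = g⁻¹ * (g * k * g⁻¹ * x * (g * k * g⁻¹)⁻¹) * g := by group
  rw [e]

omit [Finite G] in
lemma le_So {S : Subgroup G} (hS : S ∈ Om G) : S ≤ So G := le_sSup hS

omit [Finite G] in
lemma So_le_KP (P : Subgroup G → Prop) : So G ≤ KP P := by
  refine sSup_le ?_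
  intro S hS g hg S' hS' _
  by_cases h : S = S'
  · subst h
    exact le_nz_of_inv (Inv.self S) hg
  · rw [mem_nz]
    intro x
    constructor
    · intro hx
      rw [Om_comm hS hS' h g hg x hx, mul_inv_cancel_right]
      exact hx
    · intro hx
      have h1 := Om_comm hS hS' h g⁻¹ (S.inv_mem hg) _ hx
      have e : x = g⁻¹ * (g * x * g⁻¹) * g := by group
      rw [e, h1, inv_mul_cancel_right]
      exact hx

omit [Finite G] in
lemma So_normal : (So G).Normal := by
  constructor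
  intro x hx g
  have h : So G ≤ (So G).comap (MulAut.conj g).toMonoidHom := by
    refine sSup_le ?_
    intro S hS y hy
    exact le_So (Om_conj hS g) ⟨y, hy, rfl⟩
  exact h hx

/-- an element centralising a Sylow `r`-subgroup of the socle normalises all simple factors
of order divisible by `r` -/
lemma nz_of_cent (hR : Rad1 p G) {r : ℕ} [hr : Fact r.Prime] (D : Sylow r (So G)) {g : G}
    (hg : ∀ x ∈ (D : Subgroup (So G)).map (So G).subtype, g * x = x * g)
    {S : Subgroup G} (hS : S ∈ Om G) (hrS : r ∣ Nat.card S) : g ∈ nz S := by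
  have hSn : (S.subgroupOf (So G)).Normal := by
    constructor
    intro x hx y
    rw [mem_subgroupOf] at hx ⊢
    have := So_le_KP (fun _ => True) y.2 S hS trivial
    exact (this x).1 hx
  have hcard : Nat.card (S.subgroupOf (So G)) = Nat.card S :=
    Nat.card_congr (subgroupOfEquivOfLe (le_So hS)).toEquiv
  have hne : ((Pool.Agent.H898.AutSyl.sylowOf D (S.subgroupOf (So G)) :
      Sylow r (S.subgroupOf (So G))) : Subgroup (S.subgroupOf (So G))) ≠ ⊥ :=
    Sylow.ne_bot_of_dvd_card _ (by rw [hcard]; exact hrS)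
  obtain ⟨x, hx⟩ := ne_bot_iff_exists_ne_one.mp hne
  have hxD : ((x : S.subgroupOf (So G)) : So G) ∈ D :=
    (Pool.Agent.H898.AutSyl.mem_sylowOf D (S.subgroupOf (So G)) x).mp x.2
  let y : G := ((x : S.subgroupOf (So G)) : So G)
  have hyS : y ∈ S := (x : S.subgroupOf (So G)).2
  have hyD : y ∈ (D : Subgroup (So G)).map (So G).subtype := ⟨_, hxD, rfl⟩
  have hy1 : y ≠ 1 := by
    intro h
    apply hx
    apply Subtype.ext
    apply Subtype.ext
    apply Subtype.ext
    exact h
  apply nz_of_map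
  by_contra hcon
  apply hy1
  refine Om_inf hR (Om_conj hS g) hS hcon ?_ hyS
  refine ⟨y, hyS, ?_⟩
  simp [hg y hyD]

end

end Pool.Agent.TH905.NPL
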