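import Pool.Agent.TH905.NPL.Out

set_option autoImplicit false

/-! The two steps of the argument. -/

namespace Pool.Agent.TH905.NPL

open Pool.Agent.Helper407.PL Subgroup
open Pool.Agent.H898.AutSyl (MinNormal)

/-- all `p`-soluble subgroups have `p`-length at most `n` -/
def AL (p n : ℕ) (G : Type) [Group G] : Prop := ∀ H : Subgroup G, PS p ⊥ H → RLp p n ⊥ H

/-- all `p`-soluble subgroups have `p`-length at most `n` modulo a normal `p`-subgroup -/
def BL (p n : ℕ) (G : Type) [Group G] : Prop :=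
  ∀ H : Subgroup G, PS p ⊥ H → ∃ Q, PF p ⊥ Q ∧ RLp p n Q H

section
variable {G : Type} [Group G] {p : ℕ}

lemma AL.quot [Finite G] {G' : Type} [Group G'] {f : G →* G'} (hf : Function.Surjective f)
    (hker : PS p ⊥ f.ker) {n : ℕ} (h : AL p n G) : AL p n G' := by
  intro H hH
  have h1 := hH.comap f
  rw [MonoidHom.comap_bot] at h1
  have h2 := (h _ (hker.trans h1 (Inv.bot _))).map f
  rwa [Subgroup.map_bot, map_comap_eq_self_of_surjective hf] at h2

lemma BL.quot [Finite G] {G' : Type} [Group G'] {f : G →* G'} (hf : Function.Surjective f)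
    (hker : PS p ⊥ f.ker) {n : ℕ} (h : BL p n G) : BL p n G' := by
  intro H hH
  have h1 := hH.comap f
  rw [MonoidHom.comap_bot] at h1
  obtain ⟨Q, hQ, hQ'⟩ := h _ (hker.trans h1 (Inv.bot _))
  have h2 := hQ'.map f
  rw [map_comap_eq_self_of_surjective hf] at h2
  refine ⟨Q.map f, ?_, h2⟩
  rintro _ ⟨x, hx, rfl⟩
  obtain ⟨k, hk⟩ := hQ x hx
  rw [mem_bot] at hk
  exact ⟨k, by rw [← map_pow, hk, map_one]; exact one_mem _⟩

/-- an element of coprime orders is trivial -/
lemma eq_one_of_coprime {x : G} {a b : ℕ} (h : a.Coprime b) (ha : x ^ a = 1) (hb : x ^ b = 1) :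
    x = 1 := by
  have h1 := orderOf_dvd_of_pow_eq_one ha
  have h2 := orderOf_dvd_of_pow_eq_one hb
  exact orderOf_eq_one_iff.1 (Nat.eq_one_of_dvd_coprimes h h1 h2)

lemma pf_sylow {r : ℕ} {M : Subgroup G} (P : Sylow r M) :
    PF r ⊥ ((P : Subgroup M).map M.subtype) :=
  PF_bot_iff.2 (P.2.map M.subtype)

/-- The kernel of the action on the simple factors -/
abbrev KK (G : Type) [Group G] : Subgroup G := KP (G := G) fun _ => True

instance KK_normal : (KK G).Normal := KP_normal (fun _ _ _ => trivial)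

theorem step_one [Finite G] [hp : Fact p.Prime] (hR : Rad1 p G)
    (hOut : ∀ S ∈ Om G, PS p (⊥ : Subgroup (Out S)) ⊤) {n : ℕ} (h : AL p (n + 1) G) :
    BL p n (G ⧸ KK G) := by
  intro H hH
  let π : G →* G ⧸ KK G := QuotientGroup.mk' (KK G)
  have hπ : Function.Surjective π := QuotientGroup.mk'_surjective _
  have hker : π.ker = KK G := QuotientGroup.ker_mk' _
  obtain ⟨P⟩ : Nonempty (Sylow p (So G)) := inferInstance
  let P' : Subgroup G := (P : Subgroup (So G)).map (So G).subtype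
  let H' : Subgroup G := H.comap π
  let B : Subgroup G := H' ⊓ nz P'
  have hKH : KK G ≤ H' := by
    intro x hx
    rw [← hker] at hx
    show π x ∈ H
    rw [MonoidHom.mem_ker.1 hx]; exact one_mem _
  have hTK : So G ≤ KK G := So_le_KP _
  have hP'T : P' ≤ So G := map_subtype_le _
  have hP'nz : P' ≤ nz P' := le_nz_of_inv (Inv.self _)
  have hP'B : P' ≤ B := le_inf (hP'T.trans (hTK.trans hKH)) hP'nz
  -- solubility of `B`
  have hKHs : PS p (KK G) H' := by
    have := hH.comap π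
    rwa [MonoidHom.comap_bot, hker] at this
  have h1 : PS p (KK G ⊓ B) B := hKHs.restrict inf_le_left
  have h2 : PS p (So G ⊓ (KK G ⊓ B)) (KK G ⊓ B) := (PS_kernel hR hOut).restrict inf_le_left
  have h3 : PS p P' (So G ⊓ (KK G ⊓ B)) := by
    refine PS.of_PF' ?_ ?_ ?_
    · exact (sylow_PF' P).mono le_rfl (le_inf inf_le_left
        (inf_le_right.trans (inf_le_right.trans inf_le_right)))
    · exact le_inf hP'T (le_inf (hP'T.trans hTK) hP'B)
    · exact (nz_inv P').mono (inf_le_right.trans (inf_le_right.trans inf_le_right))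
  have h4 : PS p ⊥ P' := PS.of_PF (pf_sylow P) bot_le (Inv.bot _)
  have h5 : PS p ⊥ B :=
    ((h4.trans h3 (Inv.bot _)).trans h2 (Inv.bot _)).trans h1 (Inv.bot _)
  obtain ⟨S, s0, s1, s2, s3, s4, s5⟩ := h B h5
  have hS1B : S 1 ≤ B := s1 ▸ chain_le s3 (by omega)
  have hS1K : S 1 ≤ KK G := by
    intro a ha S₀ hS₀ _
    refine nz_of_cent hR P ?_ hS₀ (Om_dvd hR hS₀)
    intro x hx
    have hxB : x ∈ B := hP'B hx
    have c1 : a * x * a⁻¹ * x⁻¹ ∈ S 1 := by
      have := (S 1).mul_mem ha (s2 1 x hxB _ ((S 1).inv_mem ha))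
      have e : a * (x * a⁻¹ * x⁻¹) = a * x * a⁻¹ * x⁻¹ := by group
      rwa [e] at this
    have c2 : a * x * a⁻¹ * x⁻¹ ∈ P' :=
      P'.mul_mem (((hS1B ha).2 x).1 hx) (P'.inv_mem hx)
    obtain ⟨k, hk⟩ := pf_sylow P _ c2
    obtain ⟨m, hm, hm'⟩ := s4 0 (by omega) _ c1
    rw [mul_zero, s0] at hm'
    rw [mem_bot] at hk hm'
    have c3 := eq_one_of_coprime (Nat.Coprime.pow_right k hm) hm' hk
    have c4 : a * x = a * x * a⁻¹ * x⁻¹ * (x * a) := by group
    rw [c4, c3, one_mul]
  refine ⟨(S 2).map π, ?_, ?_⟩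
  · rintro _ ⟨x, hx, rfl⟩
    obtain ⟨k, hk⟩ := s5 0 (by omega) x (by simpa using hx)
    refine ⟨k, ?_⟩
    have hk' : x ^ p ^ k ∈ KK G := hS1K (by simpa using hk)
    rw [mem_bot, ← map_pow]
    rw [← hker] at hk'
    exact hk'
  · have h6 : RLp p n (S 2) B := by
      refine ⟨fun i => S (i + 2), rfl, ?_, fun i => s2 _, fun i => s3 _, ?_, ?_⟩
      · rw [← s1]; congr 1
      · intro i hi
        have := s4 (i + 1) (by omega)
        rwa [show 2 * (i + 1) = 2 * i + 2 by ring] at this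
      · intro i hi
        have := s5 (i + 1) (by omega)
        rwa [show 2 * (i + 1) = 2 * i + 2 by ring] at this
    have h7 := h6.map π
    have h8 : B.map π = H := by
      apply le_antisymm
      · rintro _ ⟨x, hx, rfl⟩
        exact hx.1
      · intro y hy
        obtain ⟨g, rfl⟩ := hπ y
        have hT := So_normal (G := G)
        obtain ⟨m, hm, hm'⟩ := frattini (A := ⊤) (Inv.of_normal ⊤ (So G)) P g trivial
        have hmK : m ∈ KK G := hTK hm
        have hπm : π m = 1 := by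
          rw [← hker] at hmK; exact hmK
        refine ⟨m * g, ⟨?_, hm'⟩, by rw [map_mul, hπm, one_mul]⟩
        show π (m * g) ∈ H
        rw [map_mul, hπm, one_mul]; exact hy
    rwa [h8] at h7

/-- the kernel of the action on simple factors of order divisible by `r` -/
abbrev KR (G : Type) [Group G] (r : ℕ) : Subgroup G := KP (G := G) fun S => r ∣ Nat.card S

instance KR_normal (r : ℕ) : (KR G r).Normal := KP_normal (fun S g h => by
  have e : S ≃* (S.map (MulAut.conj g).toMonoidHom) :=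
    S.equivMapOfInjective _ (MulAut.conj g).injective
  rwa [← Nat.card_congr e.toEquiv])

lemma exists_other_prime [Finite G] [hp : Fact p.Prime] (hR : Rad1 p G) {S : Subgroup G}
    (hS : S ∈ Om G) : ∃ r, r.Prime ∧ r ≠ p ∧ r ∣ Nat.card S := by
  by_contra hcon
  push Not at hcon
  have h1 : Nat.card S = p ^ (Nat.card S).primeFactorsList.length := by
    apply Nat.eq_prime_pow_of_unique_prime_dvd Nat.card_pos.ne'
    intro d hd hd'
    by_contra hne
    exact hcon d hd hne hd'
  have h2 : IsPGroup p S := IsPGroup.of_card h1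
  have hs := Om_simple hS
  have h3 : Nontrivial (center S) := h2.center_nontrivial
  obtain ⟨x, hx⟩ := exists_ne (1 : center S)
  apply hx
  apply Subtype.ext
  apply Subtype.ext
  refine Om_center hR hS (x := ((x : S) : G)) (x : S).2 ?_
  intro y hy
  have := mem_center_iff.1 x.2 ⟨y, hy⟩
  exact (congrArg Subtype.val this).symm

theorem step_two_aux [Finite G] [hp : Fact p.Prime] (hR : Rad1 p G)
    (hOut : ∀ S ∈ Om G, PS p (⊥ : Subgroup (Out S)) ⊤) {n : ℕ} (h : BL p n G)
    {H' : Subgroup G} (hKH : KK G ≤ H') (hKHs : PS p (KK G) H') {r : ℕ} (hr : r.Prime)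
    (hrp : r ≠ p) : RLp p n (H' ⊓ KR G r) H' := by
  have hrf : Fact r.Prime := ⟨hr⟩
  have hTn := So_normal (G := G)
  obtain ⟨D⟩ : Nonempty (Sylow r (So G)) := inferInstance
  let D' : Subgroup G := (D : Subgroup (So G)).map (So G).subtype
  let M : Subgroup G := So G ⊓ nz D'
  obtain ⟨P⟩ : Nonempty (Sylow p M) := inferInstance
  let P' : Subgroup G := (P : Subgroup M).map M.subtype
  let X : Subgroup G := H' ⊓ nz D' ⊓ nz P'
  let B : Subgroup G := X ⊔ D'
  have hTK : So G ≤ KK G := So_le_KP _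
  have hTR : So G ≤ KR G r := So_le_KP _
  have hD'T : D' ≤ So G := map_subtype_le _
  have hP'M : P' ≤ M := map_subtype_le _
  have hP'T : P' ≤ So G := hP'M.trans inf_le_left
  have hXD : Inv X D' := (nz_inv D').mono (inf_le_left.trans inf_le_right)
  have hXH : X ≤ H' := inf_le_left.trans inf_le_left
  have hBH : B ≤ H' := sup_le hXH (hD'T.trans (hTK.trans hKH))
  have hP'X : P' ≤ X := le_inf (le_inf (hP'T.trans (hTK.trans hKH)) (hP'M.trans inf_le_right))
    (le_nz_of_inv (Inv.self _))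
  have h1 : PS p (KK G ⊓ X) X := hKHs.restrict hXH
  have h2 : PS p (So G ⊓ (KK G ⊓ X)) (KK G ⊓ X) := (PS_kernel hR hOut).restrict inf_le_left
  have h3 : PS p P' (So G ⊓ (KK G ⊓ X)) := by
    refine PS.of_PF' ?_ ?_ ?_
    · refine (sylow_PF' P).mono le_rfl (le_inf (le_inf inf_le_left ?_) ?_)
      · exact inf_le_right.trans (inf_le_right.trans (inf_le_left.trans inf_le_right))
      · exact inf_le_right.trans (inf_le_right.trans inf_le_right)
    · exact le_inf hP'T (le_inf (hP'T.trans hTK) hP'X)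
    · exact (nz_inv P').mono (inf_le_right.trans (inf_le_right.trans inf_le_right))
  have h4 : PS p ⊥ P' := PS.of_PF (pf_sylow P) bot_le (Inv.bot _)
  have h5 : PS p ⊥ X :=
    ((h4.trans h3 (Inv.bot _)).trans h2 (Inv.bot _)).trans h1 (Inv.bot _)
  have h6 : PS p ⊥ D' := by
    refine PS.of_PF' ?_ bot_le (Inv.bot _)
    intro x hx
    obtain ⟨k, hk⟩ := pf_sylow D x hx
    exact ⟨r ^ k, Nat.Coprime.pow_left k ((Nat.coprime_primes hr hp.out).2 hrp), hk⟩
  have h7 : PS p ⊥ B := by
    have := h5.sup hXD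
    rw [bot_sup_eq] at this
    exact h6.trans this (Inv.bot _)
  obtain ⟨Q, hQ, hQB⟩ := h B h7
  have hQle : Q ≤ B := hQB.le
  have hBD : Inv B D' := by
    intro g hg x hx
    obtain ⟨a, ha, d, hd, rfl⟩ := (mem_sup_inv hXD).1 hg
    have := hXD a ha _ (D'.mul_mem (D'.mul_mem hd hx) (D'.inv_mem hd))
    have e : a * (d * x * d⁻¹) * a⁻¹ = a * d * x * (a * d)⁻¹ := by group
    rwa [e] at this
  have hQK : Q ≤ KR G r := by
    intro a ha S₀ hS₀ hrS
    refine nz_of_cent hR D ?_ hS₀ hrS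
    intro x hx
    have hxB : x ∈ B := mem_sup_right hx
    have c1 : a * x * a⁻¹ * x⁻¹ ∈ Q := by
      have := Q.mul_mem ha (hQB.inv x hxB _ (Q.inv_mem ha))
      have e : a * (x * a⁻¹ * x⁻¹) = a * x * a⁻¹ * x⁻¹ := by group
      rwa [e] at this
    have c2 : a * x * a⁻¹ * x⁻¹ ∈ D' := D'.mul_mem (hBD a (hQle ha) x hx) (D'.inv_mem hx)
    obtain ⟨k, hk⟩ := hQ _ c1
    obtain ⟨l, hl⟩ := pf_sylow D _ c2
    rw [mem_bot] at hk hl
    have c3 := eq_one_of_coprime
      (Nat.Coprime.pow k l ((Nat.coprime_primes hp.out hr).2 hrp.symm)) hk hl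
    have c4 : a * x = a * x * a⁻¹ * x⁻¹ * (x * a) := by group
    rw [c4, c3, one_mul]
  have hKRi : ∀ N : Subgroup G, Inv N (KR G r) := fun N => Inv.of_normal N _
  have h8 : RLp p n (B ⊓ KR G r) B :=
    hQB.enlarge (le_inf hQle hQK) inf_le_left ((Inv.self B).inf (hKRi B))
  have h9 := RLp_sup h8 (D := H' ⊓ KR G r) (((Inv.self H').mono hBH).inf (hKRi B))
  have e1 : B ⊓ KR G r ⊔ H' ⊓ KR G r = H' ⊓ KR G r :=
    sup_eq_right.2 (inf_le_inf_right _ hBH)
  have e2 : B ⊔ H' ⊓ KR G r = H' := by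
    apply le_antisymm (sup_le hBH inf_le_left)
    intro g hg
    obtain ⟨m, hm, hm'⟩ := frattini (A := ⊤) (Inv.of_normal ⊤ (So G)) D g trivial
    have hMi : Inv (nz D') M := (Inv.of_normal _ (So G)).inf (Inv.self _)
    obtain ⟨m', hm1, hm2⟩ := frattini (A := nz D') (M := M) hMi P (m * g) hm'
    have hmm : m' * m ∈ So G := (So G).mul_mem hm1.1 hm
    have hx : m' * (m * g) ∈ X := by
      refine ⟨⟨?_, (nz D').mul_mem hm1.2 hm'⟩, hm2⟩
      rw [← mul_assoc]
      exact H'.mul_mem (hKH (hTK hmm)) hg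
    have e3 : g = (m' * m)⁻¹ * (m' * (m * g)) := by group
    rw [e3]
    refine (B ⊔ H' ⊓ KR G r).mul_mem (mem_sup_right ⟨?_, ?_⟩) (mem_sup_left (mem_sup_left hx))
    · exact H'.inv_mem (hKH (hTK hmm))
    · exact (KR G r).inv_mem (hTR hmm)
  rw [e1, e2] at h9
  exact h9

theorem step_two [Finite G] [hp : Fact p.Prime] (hR : Rad1 p G)
    (hOut : ∀ S ∈ Om G, PS p (⊥ : Subgroup (Out S)) ⊤) {n : ℕ} (h : BL p n G) :
    AL p n (G ⧸ KK G) := by
  classical
  intro H hH
  let π : G →* G ⧸ KK G := QuotientGroup.mk' (KK G)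
  have hπ : Function.Surjective π := QuotientGroup.mk'_surjective _
  have hker : π.ker = KK G := QuotientGroup.ker_mk' _
  let H' : Subgroup G := H.comap π
  have hKH : KK G ≤ H' := by
    intro x hx
    rw [← hker] at hx
    show π x ∈ H
    rw [MonoidHom.mem_ker.1 hx]; exact one_mem _
  have hKHs : PS p (KK G) H' := by
    have := hH.comap π
    rwa [MonoidHom.comap_bot, hker] at this
  let F : Finset ℕ := (Nat.card G).primeFactors.erase p
  have key : ∀ F : Finset ℕ, (∀ r ∈ F, r.Prime ∧ r ≠ p) →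
      RLp p n (H' ⊓ F.inf (KR G)) H' := by
    intro F
    induction F using Finset.induction_on with
    | empty =>
      intro _
      rw [Finset.inf_empty, inf_top_eq]
      exact RLp.refl _ _
    | insert r F hrF ih =>
      intro hF
      have h1 := ih (fun S hS => hF S (Finset.mem_insert_of_mem hS))
      obtain ⟨hr, hrp⟩ := hF r (Finset.mem_insert_self _ _)
      have h3 := h1.inf (step_two_aux hR hOut h hKH hKHs hr hrp)
      rw [Finset.inf_insert]
      have e : H' ⊓ F.inf (KR G) ⊓ (H' ⊓ KR G r) = H' ⊓ (KR G r ⊓ F.inf (KR G)) := by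
        ext x
        simp only [mem_inf]
        tauto
      rw [e] at h3
      exact h3
  have h1 := key F (fun r hr => ⟨Nat.prime_of_mem_primeFactors (Finset.mem_of_mem_erase hr),
    Finset.ne_of_mem_erase hr⟩)
  have h2 : RLp p n (KK G) H' := by
    refine h1.enlarge ?_ hKH (Inv.of_normal _ _)
    rintro g ⟨-, hg⟩ S hS _
    obtain ⟨r, hr, hrp, hrS⟩ := exists_other_prime hR hS
    have hrF : r ∈ F := Finset.mem_erase.2 ⟨hrp, Nat.mem_primeFactors.2
      ⟨hr, hrS.trans (card_subgroup_dvd_card S), Nat.card_pos.ne'⟩⟩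
    have h3 : F.inf (KR G) ≤ KR G r := Finset.inf_le hrF
    exact h3 hg S hS hrS
  have h3 := h2.map π
  rw [map_comap_eq_self_of_surjective hπ] at h3
  have e : (KK G).map π = ⊥ := by
    exact (Subgroup.map_eq_bot_iff _).2 (le_of_eq hker.symm)
  rwa [e] at h3

end

end Pool.Agent.TH905.NPL
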